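import Pool.Agent.H97.T6.Defs

/-!
# T6 row Atoms (MP_75f39d_co): minimal nonempty members are singletons

An atom is an `X ∈ A`, nonempty, such that the only nonempty member inside `X` is `X`.
Proof.
(a) Two distinct atoms `X0`, `X1` are disjoint.  Otherwise let `i ∈ X0 ∩ X1`.  `X0 ⊆ X1` is impossible, so
there is `j ∈ X0 \ X1` (so `j ≠ i`).  Also `X1 ≠ {i}` (else `X1 ⊆ X0`), so there is `j' ∈ X1`, `j' ≠ i`.
`Lg A ∅ (X0.erase j)` and `Lg A ∅ (X1.erase j')` by the atom property (a member inside `X0.erase j` is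
inside `X0`, not equal to `X0`, so empty).  `hno ∅ X0 X1 i j j'` gives False.
(b) Let `X0` be an atom with two distinct points.  `hsep` gives partial members `Y ∈ A` (some point of
`X0` in `Y`, some point of `X0` not in `Y`).  Call `Y` minimal partial if no partial member is strictly
inside `Y`.  For a minimal partial `Y` put `W Y` = union of all members strictly inside `Y`.  A member
strictly inside `Y` does not contain `X0`, is not partial, so misses `X0`; so `W Y` misses `X0`,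
`W Y ∈ A` (`sup_mem`, `∅ ∈ A`, `Y ≠ ∅`), `W Y ⊂ Y`.  `W Y ≠ ∅`: otherwise `Y` is an atom meeting `X0` in
a point, so `Y = X0` by (a), but `X0` is not inside `Y`.  Choose a minimal partial `Y` with `(W Y).card`
minimal, `W = W Y`.  Choose `u ∈ A`, `u ⊂ W` with `u.card` maximal (`∅` is a candidate), so every `Z ∈ A`
with `u ⊆ Z ⊂ W` equals `u`.  Let `j ∈ W \ u`, `i ∈ Y ∩ X0` (so `i ∉ W`, `i ∉ u`, `i ≠ j`).
`Lg A u (Y.erase j)`: `Z ∈ A`, `Z ⊆ Y.erase j` gives `Z ⊂ Y`, `Z ⊆ W`, `Z ∪ u ∈ A`,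
`u ⊆ Z ∪ u ⊂ W` (`j` is missing), so `Z ∪ u = u`.
No member is strictly between `u` and `u ∪ X0`: such a member `Y'` meets `X0` (it has a point outside `u`)
and does not contain `X0`, so it is partial; take a partial member `Y2 ⊆ Y'` of least cardinality; it is
minimal partial, `W Y2` misses `X0` and `W Y2 ⊆ Y2 ⊆ u ∪ X0`, so `W Y2 ⊆ u ⊂ W`, contradiction with the
choice of `Y`.
Let `j' ∈ X0`, `j' ≠ i`.  `Lg A u ((u ∪ X0).erase j')`: `Z ∈ A`, `Z ⊆ (u ∪ X0).erase j'` gives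
`u ⊆ Z ∪ u ⊂ u ∪ X0` (`j'` is missing), `Z ∪ u ∈ A`, so `Z ∪ u = u`.
`j ∉ u ∪ X0` since `j ∈ W` and `W` misses `X0`.  `hno u Y (u ∪ X0) i j j'` gives False.
-/

set_option autoImplicit false

namespace Pool.Agent.H97.T6

open Finset

variable {α : Type*} [DecidableEq α]

private theorem atoms_eq {A : Finset (Finset α)} (h0 : ∅ ∈ A)
    (hno : ∀ (u X X' : Finset α) (i j j' : α), X ∈ A → X' ∈ A → Lg A u (X.erase j) →
      Lg A u (X'.erase j') → i ∉ u → i ∈ X → i ∈ X' → j ∈ X → j' ∈ X' → i ≠ j → i ≠ j' →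
      j ∉ X' → False) {X0 X1 : Finset α} {i : α} (hX0 : X0 ∈ A) (hX1 : X1 ∈ A)
    (h0a : ∀ Z ∈ A, Z ⊆ X0 → Z.Nonempty → Z = X0) (h1a : ∀ Z ∈ A, Z ⊆ X1 → Z.Nonempty → Z = X1)
    (hi0 : i ∈ X0) (hi1 : i ∈ X1) : X0 = X1 := by
  by_contra hne
  have key : ∀ {X : Finset α} {j : α}, (∀ Z ∈ A, Z ⊆ X → Z.Nonempty → Z = X) → j ∈ X →
      Lg A ∅ (X.erase j) := by
    intro X j ha hj
    refine ⟨h0, empty_subset _, ?_⟩
    intro W hW hWX
    rcases W.eq_empty_or_nonempty with hW0 | hWn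
    · rw [hW0]
    · exfalso
      have h1 : W = X := ha W hW (hWX.trans (erase_subset _ _)) hWn
      have h2 : j ∈ W := by rw [h1]; exact hj
      exact (mem_erase.mp (hWX h2)).1 rfl
  have hns : ¬ X0 ⊆ X1 := fun h => hne (h1a X0 hX0 h ⟨i, hi0⟩)
  obtain ⟨j, hj0, hj1⟩ := not_subset.mp hns
  have hns' : ¬ X1 ⊆ {i} := by
    intro h
    have h2 : X1 ⊆ X0 := by
      intro z hz
      have := mem_singleton.mp (h hz)
      rw [this]; exact hi0
    exact hne (h0a X1 hX1 h2 ⟨i, hi1⟩).symm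
  obtain ⟨j', hj'1, hj'2⟩ := not_subset.mp hns'
  have hij' : i ≠ j' := fun h => hj'2 (mem_singleton.mpr h.symm)
  have hij : i ≠ j := fun h => hj1 (h ▸ hi1)
  exact hno ∅ X0 X1 i j j' hX0 hX1 (key h0a hj0) (key h1a hj'1) (notMem_empty i) hi0 hi1 hj0 hj'1
    hij hij' hj1

theorem atoms_singleton {A : Finset (Finset α)} (hA : UC A) (h0 : ∅ ∈ A)
    (hsep : ∀ x ∈ A.sup id, ∀ y ∈ A.sup id, x ≠ y → ∃ T ∈ A, ¬ (x ∈ T ↔ y ∈ T))
    (hno : ∀ (u X X' : Finset α) (i j j' : α), X ∈ A → X' ∈ A → Lg A u (X.erase j) →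
      Lg A u (X'.erase j') → i ∉ u → i ∈ X → i ∈ X' → j ∈ X → j' ∈ X' → i ≠ j → i ≠ j' →
      j ∉ X' → False) :
    ∀ X ∈ A, X.Nonempty → (∀ Z ∈ A, Z ⊆ X → Z.Nonempty → Z = X) → ∃ s, X = {s} := by
  classical
  intro X0 hX0 hne0 hat
  by_contra hns
  obtain ⟨x, hx⟩ := hne0
  have hxy : ∃ y ∈ X0, y ≠ x := by
    by_contra hcon
    push Not at hcon
    exact hns ⟨x, eq_singleton_iff_unique_mem.mpr ⟨hx, hcon⟩⟩
  obtain ⟨y, hy, hyx⟩ := hxy
  -- partial members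
  let P : Finset α → Prop := fun Y => (∃ a ∈ X0, a ∈ Y) ∧ (∃ b ∈ X0, b ∉ Y)
  let W : Finset α → Finset α := fun Y => (A.filter fun Z => Z ⊂ Y).sup id
  let M : Finset (Finset α) := A.filter fun Y => P Y ∧ ∀ Z ∈ A, Z ⊂ Y → ¬ P Z
  have hPex : ∃ T ∈ A, P T := by
    obtain ⟨T, hT, hxyT⟩ := hsep x (mem_U.mpr ⟨X0, hX0, hx⟩) y (mem_U.mpr ⟨X0, hX0, hy⟩) hyx.symm
    refine ⟨T, hT, ?_⟩
    by_cases hxT : x ∈ T
    · have hyT : y ∉ T := fun h => hxyT ⟨fun _ => h, fun _ => hxT⟩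
      exact ⟨⟨x, hx, hxT⟩, ⟨y, hy, hyT⟩⟩
    · have hyT : y ∈ T := by
        by_contra h
        exact hxyT ⟨fun h1 => (hxT h1).elim, fun h1 => (h h1).elim⟩
      exact ⟨⟨y, hy, hyT⟩, ⟨x, hx, hxT⟩⟩
  -- a minimal partial member inside a partial member
  have hminP : ∀ Y' ∈ A, P Y' → ∃ Y2 ∈ M, Y2 ⊆ Y' := by
    intro Y' hY' hPY'
    obtain ⟨Y2, hY2, hmin⟩ := exists_min_image (A.filter fun Y => P Y ∧ Y ⊆ Y') card
      ⟨Y', mem_filter.mpr ⟨hY', hPY', Subset.refl _⟩⟩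
    obtain ⟨hY2A, hPY2, hY2Y'⟩ := mem_filter.mp hY2
    refine ⟨Y2, mem_filter.mpr ⟨hY2A, hPY2, ?_⟩, hY2Y'⟩
    intro Z hZ hZY hPZ
    have h1 := hmin Z (mem_filter.mpr ⟨hZ, hPZ, hZY.subset.trans hY2Y'⟩)
    have h2 := card_lt_card hZY
    omega
  have hmiss : ∀ Y ∈ M, ∀ Z ∈ A, Z ⊂ Y → ∀ a ∈ X0, a ∉ Z := by
    intro Y hY Z hZ hZY a ha haZ
    obtain ⟨hYA, hPY, hYm⟩ := mem_filter.mp hY
    have h1 := hYm Z hZ hZY
    obtain ⟨b, hb, hbY⟩ := hPY.2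
    exact h1 ⟨⟨a, ha, haZ⟩, ⟨b, hb, fun h => hbY (hZY.subset h)⟩⟩
  have hWmem : ∀ {Y : Finset α} {z : α}, z ∈ W Y ↔ ∃ Z ∈ A, Z ⊂ Y ∧ z ∈ Z := by
    intro Y z
    simp only [W, mem_sup, mem_filter, id]
    constructor
    · rintro ⟨V, ⟨h1, h2⟩, h3⟩
      exact ⟨V, h1, h2, h3⟩
    · rintro ⟨V, h1, h2, h3⟩
      exact ⟨V, ⟨h1, h2⟩, h3⟩
  have hWmiss : ∀ Y ∈ M, ∀ a ∈ X0, a ∉ W Y := by
    intro Y hY a ha haW
    obtain ⟨Z, hZ, hZY, haZ⟩ := hWmem.mp haW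
    exact hmiss Y hY Z hZ hZY a ha haZ
  have hWsub : ∀ Y : Finset α, W Y ⊆ Y := by
    intro Y z hz
    obtain ⟨Z, hZ, hZY, hzZ⟩ := hWmem.mp hz
    exact hZY.subset hzZ
  have hsubW : ∀ {Y Z : Finset α}, Z ∈ A → Z ⊂ Y → Z ⊆ W Y := by
    intro Y Z hZ hZY z hz
    exact hWmem.mpr ⟨Z, hZ, hZY, hz⟩
  have hWA : ∀ Y ∈ M, W Y ∈ A := by
    intro Y hY
    obtain ⟨hYA, ⟨⟨a, ha, haY⟩, _⟩, hYm⟩ := mem_filter.mp hY
    refine sup_mem hA (filter_subset _ _) ⟨∅, mem_filter.mpr ⟨h0, ?_⟩⟩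
    exact empty_ssubset.mpr ⟨a, haY⟩
  have hWne : ∀ Y ∈ M, (W Y).Nonempty := by
    intro Y hY
    by_contra hemp
    rw [not_nonempty_iff_eq_empty] at hemp
    obtain ⟨hYA, ⟨⟨a, ha, haY⟩, ⟨b, hb, hbY⟩⟩, hYm⟩ := mem_filter.mp hY
    have hatY : ∀ Z ∈ A, Z ⊆ Y → Z.Nonempty → Z = Y := by
      intro Z hZ hZY hZn
      by_contra hne
      obtain ⟨z, hz⟩ := hZn
      have h1 := hsubW hZ (hZY.ssubset_of_ne hne) hz
      rw [hemp] at h1
      exact notMem_empty z h1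
    have h2 := atoms_eq h0 hno hX0 hYA hat hatY ha haY
    exact hbY (h2 ▸ hb)
  have hMne : M.Nonempty := by
    obtain ⟨T, hT, hPT⟩ := hPex
    obtain ⟨Y2, hY2, _⟩ := hminP T hT hPT
    exact ⟨Y2, hY2⟩
  obtain ⟨Y, hYM, hYmin⟩ := exists_min_image M (fun Y => (W Y).card) hMne
  obtain ⟨hYA, ⟨⟨i, hiX, hiY⟩, ⟨b, hb, hbY⟩⟩, hYm⟩ := mem_filter.mp hYM
  obtain ⟨u, hu, humax⟩ := exists_max_image (A.filter fun Z => Z ⊂ W Y) card
    ⟨∅, mem_filter.mpr ⟨h0, empty_ssubset.mpr (hWne Y hYM)⟩⟩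
  obtain ⟨huA, huW⟩ := mem_filter.mp hu
  have hueq : ∀ Z ∈ A, u ⊆ Z → Z ⊂ W Y → Z = u := by
    intro Z hZ huZ hZW
    exact (eq_of_subset_of_card_le huZ (humax Z (mem_filter.mpr ⟨hZ, hZW⟩))).symm
  obtain ⟨j, hjW, hju⟩ := exists_of_ssubset huW
  have hiW : i ∉ W Y := hWmiss Y hYM i hiX
  have humiss : ∀ a ∈ X0, a ∉ u := fun a ha hau => hWmiss Y hYM a ha (huW.subset hau)
  have hjX : j ∉ X0 := fun h => hWmiss Y hYM j h hjW
  have hL1 : Lg A u (Y.erase j) := by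
    refine ⟨huA, ?_, ?_⟩
    · intro z hz
      exact mem_erase.mpr ⟨fun h => hju (h ▸ hz), hWsub Y (huW.subset hz)⟩
    · intro Z hZ hZY
      have hjZ : j ∉ Z := fun h => (mem_erase.mp (hZY h)).1 rfl
      have hZY2 : Z ⊂ Y := by
        refine (hZY.trans (erase_subset _ _)).ssubset_of_ne ?_
        intro h
        exact hjZ (h ▸ hWsub Y hjW)
      have h1 : Z ∪ u ⊂ W Y := by
        refine (union_subset (hsubW hZ hZY2) huW.subset).ssubset_of_ne ?_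
        intro h
        have : j ∈ Z ∪ u := h ▸ hjW
        rcases mem_union.mp this with h2 | h2
        · exact hjZ h2
        · exact hju h2
      have h2 := hueq (Z ∪ u) (hA Z hZ u huA) subset_union_right h1
      intro z hz
      rw [← h2]
      exact mem_union_left _ hz
  have hnob : ∀ Y' ∈ A, u ⊂ Y' → Y' ⊂ u ∪ X0 → False := by
    intro Y' hY' h1 h2
    obtain ⟨p, hpY, hpu⟩ := exists_of_ssubset h1
    have hpX : p ∈ X0 := by
      rcases mem_union.mp (h2.subset hpY) with h | h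
      · exact (hpu h).elim
      · exact h
    have hnX : ¬ X0 ⊆ Y' := by
      intro h
      exact h2.2 (union_subset h1.subset h)
    obtain ⟨q, hq, hqY⟩ := not_subset.mp hnX
    obtain ⟨Y2, hY2, hY2Y⟩ := hminP Y' hY' ⟨⟨p, hpX, hpY⟩, ⟨q, hq, hqY⟩⟩
    have h3 : W Y2 ⊆ u := by
      intro z hz
      rcases mem_union.mp (h2.subset (hY2Y (hWsub Y2 hz))) with h | h
      · exact h
      · exact (hWmiss Y2 hY2 z h hz).elim
    have h4 := hYmin Y2 hY2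
    have h5 := card_le_card h3
    have h6 := card_lt_card huW
    omega
  have hj'ex : ∃ j' ∈ X0, i ≠ j' := by
    by_cases h : i = x
    · exact ⟨y, hy, fun h1 => hyx (h1.symm.trans h)⟩
    · exact ⟨x, hx, h⟩
  obtain ⟨j', hj', hij'⟩ := hj'ex
  have hL2 : Lg A u ((u ∪ X0).erase j') := by
    refine ⟨huA, ?_, ?_⟩
    · intro z hz
      exact mem_erase.mpr ⟨fun h => humiss j' hj' (h ▸ hz), mem_union_left _ hz⟩
    · intro Z hZ hZY
      have hjZ : j' ∉ Z := fun h => (mem_erase.mp (hZY h)).1 rfl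
      by_contra hZu
      obtain ⟨z, hzZ, hzu⟩ := not_subset.mp hZu
      have h1 : u ⊂ Z ∪ u := by
        refine subset_union_right.ssubset_of_ne ?_
        intro h
        exact hzu (h ▸ mem_union_left u hzZ)
      have h2 : Z ∪ u ⊂ u ∪ X0 := by
        refine (union_subset (hZY.trans (erase_subset _ _)) subset_union_left).ssubset_of_ne ?_
        intro h
        have h3 : j' ∈ Z ∪ u := by rw [h]; exact mem_union_right _ hj'
        rcases mem_union.mp h3 with h4 | h4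
        · exact hjZ h4
        · exact humiss j' hj' h4
      exact hnob _ (hA Z hZ u huA) h1 h2
  refine hno u Y (u ∪ X0) i j j' hYA (hA u huA X0 hX0) hL1 hL2 (humiss i hiX) hiY
    (mem_union_right _ hiX) (hWsub Y hjW) (mem_union_right _ hj') ?_ hij' ?_
  · intro h
    exact hjX (h ▸ hiX)
  · intro h
    rcases mem_union.mp h with h1 | h1
    · exact hju h1
    · exact hjX h1


end Pool.Agent.H97.T6
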