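import Pool.Agent.H97.T6.Defs

/-!
# MP_75f39d_co, theorem T6: the fast zeta transform in cyclic order
-/

set_option autoImplicit false

namespace Pool.Agent.H97.T6

open Finset

variable {α : Type*} [DecidableEq α]

/-- The time at which `b` is processed when the cyclic order is read from `a`. -/
def rk (N a b : ℕ) : ℕ := if a ≤ b then b - a else b + N - a

/-- The set of points processed before time `k`, started at `i`. -/
def Qk (S : Finset α) (pos : α → ℕ) (N : ℕ) (i : α) (k : ℕ) : Finset α :=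
  S.filter fun x => rk N (pos i) (pos x) < k

/-- The partial zeta transform. -/
def FF (D : Finset (Finset α)) (c : Finset α → ℚ) (Q X : Finset α) : ℚ :=
  ∑ T ∈ D, (if T ⊆ X ∧ X \ Q ⊆ T then 1 else 0) * c T

/-- The boundary pairs of `i`. -/
def Bi (A : Finset (Finset α)) (S : Finset α) (pos : α → ℕ) (N : ℕ) (i : α) :
    Finset (Finset α × α) :=
  (Bdd A S).filter fun p => i ∈ p.1 ∧ i ≠ p.2 ∧ (∃ W ∈ A, W ⊆ p.1.erase p.2) ∧
    i ∉ Mx A (p.1.erase p.2) ∧ p.1 \ Mx A (p.1.erase p.2) ⊆ S ∧
    ∀ x ∈ p.1 \ Mx A (p.1.erase p.2), rk N (pos i) (pos x) ≤ rk N (pos i) (pos p.2)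

theorem mem_Bi {A : Finset (Finset α)} {S : Finset α} {pos : α → ℕ} {N : ℕ} {i : α}
    {p : Finset α × α} : p ∈ Bi A S pos N i ↔ p ∈ Bdd A S ∧ i ∈ p.1 ∧ i ≠ p.2 ∧
      (∃ W ∈ A, W ⊆ p.1.erase p.2) ∧ i ∉ Mx A (p.1.erase p.2) ∧
      p.1 \ Mx A (p.1.erase p.2) ⊆ S ∧
      ∀ x ∈ p.1 \ Mx A (p.1.erase p.2), rk N (pos i) (pos x) ≤ rk N (pos i) (pos p.2) := by
  rw [Bi, mem_filter]

/-- The flux functional of a boundary pair. -/
def fl (A : Finset (Finset α)) (D : Finset (Finset α)) (c : Finset α → ℚ) (S : Finset α)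
    (pos : α → ℕ) (N : ℕ) (i : α) (p : Finset α × α) : ℚ :=
  FF D c (Qk S pos N i (rk N (pos i) (pos p.2))) (Mx A (p.1.erase p.2))

/-- Every nonempty part of `D` has a member that is alone in its class modulo some member `M` of `A`
with `i ∈ M ⊆ S`. -/
def Peel (A : Finset (Finset α)) (S : Finset α) (i : α) (D : Finset (Finset α)) : Prop :=
  ∀ C ⊆ D, C.Nonempty → ∃ T ∈ C, ∃ M ∈ A, i ∈ M ∧ M ⊆ S ∧ ∀ T' ∈ C, T' \ M = T \ M → T' = T

theorem FF_skip {D : Finset (Finset α)} {c : Finset α → ℚ} {Q X : Finset α} {j : α}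
    (hj : j ∉ X) : FF D c (insert j Q) X = FF D c Q X := by
  have h : X \ insert j Q = X \ Q := by
    ext x
    simp only [mem_sdiff, mem_insert, not_or]
    constructor
    · exact fun h => ⟨h.1, h.2.2⟩
    · exact fun h => ⟨h.1, fun hx => hj (hx ▸ h.1), h.2⟩
  simp only [FF, h]

theorem FF_step {D : Finset (Finset α)} {c : Finset α → ℚ} {Q X : Finset α} {j : α}
    (hj : j ∈ X) (hjQ : j ∉ Q) : FF D c (insert j Q) X = FF D c Q X +
      ∑ T ∈ D, (if T ⊆ X.erase j ∧ X \ insert j Q ⊆ T then 1 else 0) * c T := by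
  rw [FF, FF, ← sum_add_distrib]
  refine sum_congr rfl fun T _ => ?_
  rw [← add_mul]
  congr 1
  by_cases hT : j ∈ T
  · have h1 : ¬ (T ⊆ X.erase j ∧ X \ insert j Q ⊆ T) := fun h => by
      have := h.1 hT
      simp at this
    have h2 : (T ⊆ X ∧ X \ insert j Q ⊆ T) ↔ (T ⊆ X ∧ X \ Q ⊆ T) := by
      refine and_congr_right fun _ => ⟨fun h x hx => ?_, fun h x hx => ?_⟩
      · by_cases hxj : x = j
        · rw [hxj]; exact hT
        · exact h (mem_sdiff.mpr ⟨(mem_sdiff.mp hx).1, by
            rw [mem_insert, not_or]; exact ⟨hxj, (mem_sdiff.mp hx).2⟩⟩)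
      · refine h (mem_sdiff.mpr ⟨(mem_sdiff.mp hx).1, fun hq => ?_⟩)
        exact (mem_sdiff.mp hx).2 (mem_insert_of_mem hq)
    rw [if_neg h1, add_zero]
    by_cases h3 : T ⊆ X ∧ X \ insert j Q ⊆ T
    · rw [if_pos h3, if_pos (h2.mp h3)]
    · rw [if_neg h3, if_neg (fun h => h3 (h2.mpr h))]
  · have h1 : ¬ (T ⊆ X ∧ X \ Q ⊆ T) := fun h => hT (h.2 (mem_sdiff.mpr ⟨hj, hjQ⟩))
    have h2 : (T ⊆ X.erase j ∧ X \ insert j Q ⊆ T) ↔ (T ⊆ X ∧ X \ insert j Q ⊆ T) := by
      refine and_congr_left fun _ => ⟨fun h => h.trans (erase_subset _ _), fun h => ?_⟩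
      exact subset_erase.mpr ⟨h, hT⟩
    rw [if_neg h1, zero_add]
    by_cases h3 : T ⊆ X ∧ X \ insert j Q ⊆ T
    · rw [if_pos h3, if_pos (h2.mpr h3)]
    · rw [if_neg h3, if_neg (fun h => h3 (h2.mp h))]

theorem FF_mid {A D : Finset (Finset α)} {c : Finset α → ℚ} {Q X u : Finset α} {j : α}
    (hD : D ⊆ A) (hu : Lg A u (X.erase j)) (hX : X \ u ⊆ insert j Q) :
    ∑ T ∈ D, (if T ⊆ X.erase j ∧ X \ insert j Q ⊆ T then 1 else 0) * c T = FF D c Q u := by
  rw [FF]
  refine sum_congr rfl fun T hT => ?_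
  congr 1
  have h : (T ⊆ X.erase j ∧ X \ insert j Q ⊆ T) ↔ (T ⊆ u ∧ u \ Q ⊆ T) := by
    constructor
    · rintro ⟨h1, h2⟩
      refine ⟨hu.2.2 T (hD hT) h1, fun x hx => ?_⟩
      rw [mem_sdiff] at hx
      have h3 := mem_erase.mp (hu.2.1 hx.1)
      exact h2 (mem_sdiff.mpr ⟨h3.2, by rw [mem_insert, not_or]; exact ⟨h3.1, hx.2⟩⟩)
    · rintro ⟨h1, h2⟩
      refine ⟨h1.trans hu.2.1, fun x hx => ?_⟩
      rw [mem_sdiff, mem_insert, not_or] at hx
      have h3 : x ∈ u := by
        by_contra h3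
        have := hX (mem_sdiff.mpr ⟨hx.1, h3⟩)
        rw [mem_insert] at this
        rcases this with h | h
        · exact hx.2.1 h
        · exact hx.2.2 h
      exact h2 (mem_sdiff.mpr ⟨h3, hx.2.2⟩)
  by_cases h3 : T ⊆ u ∧ u \ Q ⊆ T
  · rw [if_pos h3, if_pos (h.mpr h3)]
  · rw [if_neg h3, if_neg (fun h' => h3 (h.mp h'))]

theorem FF_mid0 {A D : Finset (Finset α)} (hA : UC A) {c : Finset α → ℚ} {Q X : Finset α} {j : α}
    (hD : D ⊆ A) (hX : ¬ ∃ u, Lg A u (X.erase j) ∧ X \ u ⊆ insert j Q) :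
    ∑ T ∈ D, (if T ⊆ X.erase j ∧ X \ insert j Q ⊆ T then 1 else 0) * c T = 0 := by
  refine sum_eq_zero fun T hT => ?_
  rw [if_neg, zero_mul]
  rintro ⟨h1, h2⟩
  have hu := mx_lg hA ⟨T, hD hT, h1⟩
  refine hX ⟨_, hu, fun x hx => ?_⟩
  rw [mem_sdiff] at hx
  by_contra h3
  exact hx.2 (hu.2.2 T (hD hT) h1 (h2 (mem_sdiff.mpr ⟨hx.1, h3⟩)))

theorem rk_inj {N a b b' : ℕ} (ha : a < N) (hb : b < N) (hb' : b' < N)
    (h : rk N a b = rk N a b') : b = b' := by
  unfold rk at h
  split_ifs at h <;> omega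

theorem rk_self_lt {N a b : ℕ} (ha : a < N) (hb : b < N) (h : rk N a b < 1) : b = a := by
  unfold rk at h
  split_ifs at h <;> omega

theorem rk_lt {N a b : ℕ} (ha : a < N) (hb : b < N) : rk N a b < N := by
  unfold rk
  split_ifs <;> omega

theorem rk_self (N a : ℕ) : rk N a a = 0 := by simp [rk]

theorem nn_sub {A : Finset (Finset α)} {i : α} : Nn A i ⊆ A := filter_subset _ _

theorem FF_zero {A : Finset (Finset α)} (hA : UC A) {S : Finset α} {pos : α → ℕ} {N : ℕ}
    {i : α} (hi : i ∈ S) (hpos : Set.InjOn pos (S : Set α)) (hN : ∀ x ∈ S, pos x < N)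
    {D : Finset (Finset α)} (hD : D ⊆ Nn A i) {c : Finset α → ℚ}
    (hfl : ∀ p ∈ Bi A S pos N i, fl A D c S pos N i p = 0) :
    ∀ k : ℕ, 1 ≤ k → ∀ X ∈ A, i ∈ X → FF D c (Qk S pos N i k) X = 0 := by
  have hDA : D ⊆ A := hD.trans nn_sub
  intro k hk
  induction k, hk using Nat.le_induction with
  | base =>
    intro X hX hiX
    refine sum_eq_zero fun T hT => ?_
    rw [if_neg, zero_mul]
    rintro ⟨h1, h2⟩
    have hT' := mem_Nn.mp (hD hT)
    apply hT'.2.2
    have : insert i T = X := by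
      apply Subset.antisymm
      · exact insert_subset hiX h1
      · intro x hx
        by_cases hxi : x = i
        · rw [hxi]; exact mem_insert_self _ _
        · refine mem_insert_of_mem (h2 (mem_sdiff.mpr ⟨hx, fun hq => hxi ?_⟩))
          rw [Qk, mem_filter] at hq
          exact hpos hq.1 hi (rk_self_lt (hN i hi) (hN x hq.1) hq.2)
    rw [this]
    exact hX
  | succ k hk ih =>
    intro X hX hiX
    by_cases hj : ∃ j ∈ S, rk N (pos i) (pos j) = k
    · obtain ⟨j, hjS, hjk⟩ := hj
      have hQ : Qk S pos N i (k + 1) = insert j (Qk S pos N i k) := by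
        ext x
        rw [mem_insert, Qk, Qk, mem_filter, mem_filter]
        constructor
        · rintro ⟨h1, h2⟩
          by_cases h3 : rk N (pos i) (pos x) < k
          · exact Or.inr ⟨h1, h3⟩
          · left
            have h4 : rk N (pos i) (pos x) = rk N (pos i) (pos j) := by omega
            exact hpos h1 hjS (rk_inj (hN i hi) (hN x h1) (hN j hjS) h4)
        · rintro (h1 | h1)
          · rw [h1]
            exact ⟨hjS, by omega⟩
          · exact ⟨h1.1, by omega⟩
      have hjQ : j ∉ Qk S pos N i k := by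
        rw [Qk, mem_filter]
        rintro ⟨_, h⟩
        omega
      have hij : i ≠ j := by
        rintro rfl
        rw [rk_self] at hjk
        omega
      rw [hQ]
      by_cases hjX : j ∈ X
      · rw [FF_step hjX hjQ, ih X hX hiX, zero_add]
        by_cases hu : ∃ u, Lg A u (X.erase j) ∧ X \ u ⊆ insert j (Qk S pos N i k)
        · obtain ⟨u, hu, hXu⟩ := hu
          rw [FF_mid hDA hu hXu]
          by_cases hiu : i ∈ u
          · exact ih u hu.1 hiu
          · have hp : (X, j) ∈ Bi A S pos N i := by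
              rw [mem_Bi]
              refine ⟨mem_Bdd.mpr ⟨⟨hX, hjS⟩, hjX, fun h => hiu ?_⟩, hiX, hij,
                ⟨u, hu.1, hu.2.1⟩, ?_, ?_, ?_⟩
              · exact hu.2.2 _ h subset_rfl (mem_erase.mpr ⟨hij, hiX⟩)
              · show i ∉ Mx A (X.erase j)
                rw [mx_eq hu]
                exact hiu
              · show X \ Mx A (X.erase j) ⊆ S
                rw [mx_eq hu, ← hQ] at *
                exact hXu.trans (filter_subset _ _)
              · show ∀ x ∈ X \ Mx A (X.erase j), rk N (pos i) (pos x) ≤ rk N (pos i) (pos j)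
                rw [mx_eq hu, hjk]
                intro x hx
                have := hXu hx
                rw [← hQ, Qk, mem_filter] at this
                omega
            have h := hfl _ hp
            rw [fl] at h
            show FF D c (Qk S pos N i k) u = 0
            simp only [mx_eq hu, hjk] at h
            exact h
        · exact FF_mid0 hA hDA hu
      · rw [FF_skip hjX]
        exact ih X hX hiX
    · have hQ : Qk S pos N i (k + 1) = Qk S pos N i k := by
        ext x
        rw [Qk, Qk, mem_filter, mem_filter]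
        constructor
        · rintro ⟨h1, h2⟩
          refine ⟨h1, ?_⟩
          by_contra h3
          exact hj ⟨x, h1, by omega⟩
        · rintro ⟨h1, h2⟩
          exact ⟨h1, by omega⟩
      rw [hQ]
      exact ih X hX hiX

theorem qk_all {S : Finset α} {pos : α → ℕ} {N : ℕ} {i : α} (hi : i ∈ S)
    (hN : ∀ x ∈ S, pos x < N) : Qk S pos N i N = S := by
  rw [Qk, filter_eq_self]
  exact fun x hx => rk_lt (hN i hi) (hN x hx)

/-- Moebius step: the push-forwards vanish. -/
theorem push_zero {A : Finset (Finset α)} (hA : UC A) {S : Finset α} {D : Finset (Finset α)}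
    (hD : D ⊆ A) {c : Finset α → ℚ} {M : Finset α} (hM : M ∈ A) (hMS : M ⊆ S)
    (h : ∀ X ∈ A, M ⊆ X → FF D c S X = 0) :
    ∀ n : ℕ, ∀ R ∈ A, M ⊆ R → R.card = n → ∑ T ∈ D with T ∪ M = R, c T = 0 := by
  intro n
  induction n using Nat.strong_induction_on with
  | _ n ih =>
    intro R hR hMR hn
    have h1 := h R hR hMR
    rw [FF] at h1
    simp only [ite_mul, one_mul, zero_mul] at h1
    rw [← sum_filter] at h1
    rw [← sum_fiberwise_of_maps_to (t := A.filter fun R' => M ⊆ R' ∧ R' ⊆ R)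
      (g := fun T => T ∪ M)] at h1
    · rw [sum_eq_single R] at h1
      · rw [← h1, filter_filter]
        refine sum_congr (filter_congr fun T hT => ?_) fun _ _ => rfl
        constructor
        · intro h2
          refine ⟨⟨?_, ?_⟩, h2⟩
          · rw [← h2]; exact subset_union_left
          · intro x hx
            rw [mem_sdiff, ← h2, mem_union] at hx
            rcases hx.1 with h3 | h3
            · exact h3
            · exact absurd (hMS h3) hx.2
        · exact fun h2 => h2.2
      · intro R' hR' hne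
        rw [mem_filter] at hR'
        by_cases hS : R \ S ⊆ R'
        · rw [filter_filter]
          rw [← ih R'.card ?_ R' hR'.1 hR'.2.1 rfl]
          · refine sum_congr (filter_congr fun T hT => ?_) fun _ _ => rfl
            constructor
            · exact fun h2 => h2.2
            · intro h2
              refine ⟨⟨?_, ?_⟩, h2⟩
              · refine Subset.trans ?_ hR'.2.2
                rw [← h2]; exact subset_union_left
              · intro x hx
                have h3 := hS hx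
                rw [← h2, mem_union] at h3
                rcases h3 with h3 | h3
                · exact h3
                · exact absurd (hMS h3) (mem_sdiff.mp hx).2
          · rw [← hn]
            exact card_lt_card (Finset.ssubset_iff_subset_ne.mpr ⟨hR'.2.2, hne⟩)
        · refine sum_eq_zero fun T hT => ?_
          exfalso
          rw [mem_filter, mem_filter] at hT
          apply hS
          intro x hx
          rw [← hT.2]
          exact mem_union_left _ (hT.1.2.2 hx)
      · intro h2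
        exact absurd (mem_filter.mpr ⟨hR, hMR, subset_rfl⟩) h2
    · intro T hT
      rw [mem_filter] at hT
      rw [mem_filter]
      exact ⟨hA _ (hD hT.1) _ hM, subset_union_right, union_subset hT.2.1 hMR⟩

/-- The only function on `D` all of whose push-forwards under `T ↦ T ∪ M`, `i ∈ M ⊆ S`, vanish is `0`. -/
def Indep (A : Finset (Finset α)) (S : Finset α) (i : α) (D : Finset (Finset α)) : Prop :=
  ∀ c : Finset α → ℚ, (∀ M ∈ A, i ∈ M → M ⊆ S → ∀ R, ∑ T ∈ D with T ∪ M = R, c T = 0) →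
    ∀ T ∈ D, c T = 0

theorem indep_of_peel {A : Finset (Finset α)} {S : Finset α} {i : α} {D : Finset (Finset α)}
    (hP : Peel A S i D) : Indep A S i D := by
  intro c h
  by_contra hcon
  push Not at hcon
  obtain ⟨T0, hT0, hc0⟩ := hcon
  obtain ⟨T, hT, M, hM, hiM, hMS, hu⟩ := hP (D.filter fun T => c T ≠ 0) (filter_subset _ _)
    ⟨T0, mem_filter.mpr ⟨hT0, hc0⟩⟩
  rw [mem_filter] at hT
  have h1 := h M hM hiM hMS (T ∪ M)
  rw [sum_eq_single T] at h1
  · exact hT.2 h1
  · intro T' hT' hne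
    rw [mem_filter] at hT'
    by_contra hc'
    refine hne (hu T' (mem_filter.mpr ⟨hT'.1, hc'⟩) ?_)
    have h2 : (T' ∪ M) \ M = (T ∪ M) \ M := by rw [hT'.2]
    rwa [union_sdiff_right, union_sdiff_right] at h2
  · intro h2
    exact absurd (mem_filter.mpr ⟨hT.1, rfl⟩ : T ∈ D.filter fun T' => T' ∪ M = T ∪ M) h2

theorem coeff_zero {A : Finset (Finset α)} (hA : UC A) {S : Finset α} {i : α}
    {D : Finset (Finset α)} (hD : D ⊆ A) (hP : Indep A S i D) {c : Finset α → ℚ}
    (h : ∀ X ∈ A, i ∈ X → FF D c S X = 0) : ∀ T ∈ D, c T = 0 := by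
  refine hP c fun M hM hiM hMS R => ?_
  by_cases hR : R ∈ A ∧ M ⊆ R
  · exact push_zero hA hD hM hMS (fun X hX hMX => h X hX (hMX hiM)) _ R hR.1 hR.2 rfl
  · refine sum_eq_zero fun T hT => ?_
    exfalso
    rw [mem_filter] at hT
    apply hR
    rw [← hT.2]
    exact ⟨hA _ (hD hT.1) _ hM, subset_union_right⟩

end Pool.Agent.H97.T6
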