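import Mathlib

/-!
# MP_75f39d_co, theorem T6 (note `/team-store/H97_75f39d.md`): definitions and basic facts
-/

set_option autoImplicit false

namespace Pool.Agent.H97.T6

open Finset

variable {α : Type*} [DecidableEq α]

/-- The union of any two members is a member. -/
def UC (A : Finset (Finset α)) : Prop := ∀ X ∈ A, ∀ Y ∈ A, X ∪ Y ∈ A

/-- `u` is the largest member of `A` inside `Z`. -/
def Lg (A : Finset (Finset α)) (u Z : Finset α) : Prop :=
  u ∈ A ∧ u ⊆ Z ∧ ∀ W ∈ A, W ⊆ Z → W ⊆ u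

/-- The union of the members inside `Z`. -/
def Mx (A : Finset (Finset α)) (Z : Finset α) : Finset α := (A.filter (· ⊆ Z)).sup id

/-- The number of members that contain `x`. -/
def frq (A : Finset (Finset α)) (x : α) : ℕ := (A.filter fun T => x ∈ T).card

/-- The members `T` without `i` such that `T + i` is not a member. -/
def Nn (A : Finset (Finset α)) (i : α) : Finset (Finset α) :=
  A.filter fun T => i ∉ T ∧ insert i T ∉ A

/-- The pairs `(X, j)` with `j ∈ S`, `j ∈ X ∈ A`, `X - j ∉ A`. -/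
def Bdd (A : Finset (Finset α)) (S : Finset α) : Finset (Finset α × α) :=
  (A ×ˢ S).filter fun p => p.2 ∈ p.1 ∧ p.1.erase p.2 ∉ A

/-- The union of the members disjoint from `T`. -/
def star (A : Finset (Finset α)) (T : Finset α) : Finset α :=
  (A.filter fun M => Disjoint M T).sup id

/-- The points `i ∉ T` such that `T + i` is a member. -/
def plus (A : Finset (Finset α)) (T : Finset α) : Finset α :=
  (A.sup id).filter fun i => i ∉ T ∧ insert i T ∈ A

theorem mem_Nn {A : Finset (Finset α)} {i : α} {T : Finset α} :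
    T ∈ Nn A i ↔ T ∈ A ∧ i ∉ T ∧ insert i T ∉ A := by
  simp [Nn]

theorem mem_Bdd {A : Finset (Finset α)} {S : Finset α} {p : Finset α × α} :
    p ∈ Bdd A S ↔ (p.1 ∈ A ∧ p.2 ∈ S) ∧ p.2 ∈ p.1 ∧ p.1.erase p.2 ∉ A := by
  simp [Bdd]

theorem mem_Mx {A : Finset (Finset α)} {Z : Finset α} {x : α} :
    x ∈ Mx A Z ↔ ∃ W ∈ A, W ⊆ Z ∧ x ∈ W := by
  simp only [Mx, mem_sup, mem_filter, id]
  constructor
  · rintro ⟨W, ⟨h1, h2⟩, h3⟩
    exact ⟨W, h1, h2, h3⟩
  · rintro ⟨W, h1, h2, h3⟩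
    exact ⟨W, ⟨h1, h2⟩, h3⟩

theorem mem_U {A : Finset (Finset α)} {x : α} : x ∈ A.sup id ↔ ∃ W ∈ A, x ∈ W := by
  simp [mem_sup]

theorem sub_U {A : Finset (Finset α)} {T : Finset α} (h : T ∈ A) : T ⊆ A.sup id :=
  fun _ hx => mem_U.mpr ⟨T, h, hx⟩

theorem mem_star {A : Finset (Finset α)} {T : Finset α} {x : α} :
    x ∈ star A T ↔ ∃ M ∈ A, Disjoint M T ∧ x ∈ M := by
  simp only [star, mem_sup, mem_filter, id]
  constructor
  · rintro ⟨W, ⟨h1, h2⟩, h3⟩
    exact ⟨W, h1, h2, h3⟩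
  · rintro ⟨W, h1, h2, h3⟩
    exact ⟨W, ⟨h1, h2⟩, h3⟩

theorem mem_plus {A : Finset (Finset α)} {T : Finset α} {x : α} :
    x ∈ plus A T ↔ x ∉ T ∧ insert x T ∈ A := by
  simp only [plus, mem_filter, mem_U]
  constructor
  · exact fun h => h.2
  · exact fun h => ⟨⟨_, h.2, mem_insert_self _ _⟩, h⟩

/-- A union of members that is nonempty as a union is a member. -/
theorem sup_mem {A : Finset (Finset α)} (hA : UC A) {F : Finset (Finset α)} (hF : F ⊆ A)
    (hne : F.Nonempty) : F.sup id ∈ A := by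
  classical
  revert hF
  induction hne using Finset.Nonempty.cons_induction with
  | singleton a => intro h; simpa using h (mem_singleton_self a)
  | cons a s ha hs ih =>
    intro h
    rw [cons_eq_insert] at h ⊢
    rw [sup_insert]
    exact hA _ (h (mem_insert_self _ _)) _ (ih fun x hx => h (mem_insert_of_mem hx))

theorem lg_unique {A : Finset (Finset α)} {u v Z : Finset α} (hu : Lg A u Z) (hv : Lg A v Z) :
    u = v :=
  Subset.antisymm (hv.2.2 u hu.1 hu.2.1) (hu.2.2 v hv.1 hv.2.1)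

theorem mx_lg {A : Finset (Finset α)} (hA : UC A) {Z : Finset α} (h : ∃ W ∈ A, W ⊆ Z) :
    Lg A (Mx A Z) Z := by
  obtain ⟨W, hW, hWZ⟩ := h
  refine ⟨sup_mem hA (filter_subset _ _) ⟨W, mem_filter.mpr ⟨hW, hWZ⟩⟩, ?_, ?_⟩
  · intro x hx
    obtain ⟨V, _, hV2, hV3⟩ := mem_Mx.mp hx
    exact hV2 hV3
  · intro V hV hVZ x hx
    exact mem_Mx.mpr ⟨V, hV, hVZ, hx⟩

theorem mx_eq {A : Finset (Finset α)} {u Z : Finset α} (hu : Lg A u Z) : Mx A Z = u := by
  ext x
  rw [mem_Mx]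
  constructor
  · rintro ⟨W, hW, hWZ, hx⟩
    exact hu.2.2 W hW hWZ hx
  · intro hx
    exact ⟨u, hu.1, hu.2.1, hx⟩

end Pool.Agent.H97.T6
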