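import Pool.Agent.H97.T6.Defs

/-!
# T6 row Freq (MP_75f39d_co): sum of 2 freq - |A| over S

Proof.  For `i ∈ S` let `a = #{T ∈ A : i ∈ T, T - i ∈ A}`, `b = #{T ∈ A : i ∈ T, T - i ∉ A}`,
`a' = #{T ∈ A : i ∉ T, T + i ∈ A}`.  Then `frq A i = a + b`, `A.card = (a + b) + (a' + (Nn A i).card)`
(split `A` by `i ∈ T` and by `insert i T ∈ A`), and `a = a'` (`T ↦ T.erase i` is a bijection with inverse
`insert i`).  So `2 * frq A i - A.card = b - (Nn A i).card`.  Finally `(Bdd A S).card = ∑ i ∈ S, b_i`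
(fibres of `Prod.snd`; `card_eq_sum_card_fiberwise` and a bijection `T ↦ (T, i)`).
-/

set_option autoImplicit false

namespace Pool.Agent.H97.T6

open Finset

variable {α : Type*} [DecidableEq α]

theorem freq_one (A : Finset (Finset α)) (i : α) :
    2 * (frq A i : ℤ) - (A.card : ℤ) =
      ((A.filter fun T => i ∈ T ∧ T.erase i ∉ A).card : ℤ) - ((Nn A i).card : ℤ) := by
  have h1 : (A.filter fun T => i ∈ T).card + (A.filter fun T => ¬ i ∈ T).card = A.card :=
    card_filter_add_card_filter_not (fun T : Finset α => i ∈ T)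
  have h2 : ((A.filter fun T => i ∈ T).filter fun T => T.erase i ∈ A).card +
      ((A.filter fun T => i ∈ T).filter fun T => ¬ T.erase i ∈ A).card =
      (A.filter fun T => i ∈ T).card :=
    card_filter_add_card_filter_not (fun T : Finset α => T.erase i ∈ A)
  have h3 : ((A.filter fun T => ¬ i ∈ T).filter fun T => insert i T ∈ A).card +
      ((A.filter fun T => ¬ i ∈ T).filter fun T => ¬ insert i T ∈ A).card =
      (A.filter fun T => ¬ i ∈ T).card :=
    card_filter_add_card_filter_not (fun T : Finset α => insert i T ∈ A)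
  have h4 : ((A.filter fun T => i ∈ T).filter fun T => T.erase i ∈ A).card =
      ((A.filter fun T => ¬ i ∈ T).filter fun T => insert i T ∈ A).card := by
    refine card_nbij' (fun T => T.erase i) (fun T => insert i T) ?_ ?_ ?_ ?_
    · intro T hT
      simp only [coe_filter, mem_filter, Set.mem_ofPred_eq] at hT ⊢
      refine ⟨⟨hT.2, notMem_erase _ _⟩, ?_⟩
      rw [insert_erase hT.1.2]
      exact hT.1.1
    · intro T hT
      simp only [coe_filter, mem_filter, Set.mem_ofPred_eq] at hT ⊢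
      refine ⟨⟨hT.2, mem_insert_self _ _⟩, ?_⟩
      rw [erase_insert hT.1.2]
      exact hT.1.1
    · intro T hT
      simp only [coe_filter, mem_filter, Set.mem_ofPred_eq] at hT
      exact insert_erase hT.1.2
    · intro T hT
      simp only [coe_filter, mem_filter, Set.mem_ofPred_eq] at hT
      exact erase_insert hT.1.2
  have h5 : ((A.filter fun T => i ∈ T).filter fun T => ¬ T.erase i ∈ A) =
      A.filter fun T => i ∈ T ∧ T.erase i ∉ A := by
    rw [filter_filter]
  have h6 : ((A.filter fun T => ¬ i ∈ T).filter fun T => ¬ insert i T ∈ A) = Nn A i := by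
    rw [filter_filter]
    rfl
  rw [h5] at h2
  rw [h6] at h3
  have h7 : frq A i = (A.filter fun T => i ∈ T).card := rfl
  rw [h7]
  omega

theorem card_Bdd (A : Finset (Finset α)) (S : Finset α) :
    (Bdd A S).card = ∑ i ∈ S, (A.filter fun T => i ∈ T ∧ T.erase i ∉ A).card := by
  have h : Set.MapsTo (Prod.snd : Finset α × α → α) (Bdd A S) S := by
    intro p hp
    have hp' := mem_Bdd.mp (mem_coe.mp hp)
    exact mem_coe.mpr hp'.1.2
  rw [card_eq_sum_card_fiberwise h]
  refine sum_congr rfl fun i hi => ?_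
  refine card_nbij' (fun p => p.1) (fun T => (T, i)) ?_ ?_ ?_ ?_
  · intro p hp
    simp only [coe_filter, Set.mem_ofPred_eq, mem_Bdd] at hp ⊢
    obtain ⟨⟨⟨h1, h2⟩, h3, h4⟩, h5⟩ := hp
    subst h5
    exact ⟨h1, h3, h4⟩
  · intro T hT
    simp only [coe_filter, Set.mem_ofPred_eq, mem_Bdd] at hT ⊢
    exact ⟨⟨⟨hT.1, hi⟩, hT.2.1, hT.2.2⟩, trivial⟩
  · intro p hp
    simp only [coe_filter, Set.mem_ofPred_eq] at hp
    exact Prod.ext rfl hp.2.symm
  · intro T _
    rfl

theorem freq_sum (A : Finset (Finset α)) (S : Finset α) :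
    ∑ i ∈ S, (2 * (frq A i : ℤ) - (A.card : ℤ)) =
      ((Bdd A S).card : ℤ) - ∑ i ∈ S, ((Nn A i).card : ℤ) := by
  rw [card_Bdd, Nat.cast_sum, ← sum_sub_distrib]
  exact sum_congr rfl fun i _ => freq_one A i

end Pool.Agent.H97.T6
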