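import Pool.Agent.H97.T6.Defs

/-!
# T6 row Singles (MP_75f39d_co): if all atoms are singletons and no point is in more than half of the
members then the family is a power set

Proof.  Let `{s} ∈ A`.  `T ↦ insert s T` maps `{T ∈ A : s ∉ T}` injectively to `{T ∈ A : s ∈ T}`
(`{s} ∪ T ∈ A`); by `hf` the second set has at most as many elements
(`frq A s + #{T ∈ A : s ∉ T} = A.card`), so the map is onto: `X ∈ A`, `s ∈ X` implies `X.erase s ∈ A`
(`Finset.surj_on_of_inj_on_of_card_le` or `eq_of_subset_of_card_le` for the image).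
Every point of every member is an `s` with `{s} ∈ A`: otherwise let `X ∈ A` be of least cardinality
with a point `y ∈ X`, `{y} ∉ A`.  `X` is nonempty, so there is a nonempty member `Z ⊆ X` of least
cardinality; it is an atom, so `Z = {s}` by `hat`, `s ∈ X`, `{s} ∈ A`, `s ≠ y`, and `X.erase s ∈ A` is smaller
and contains `y`: contradiction.  So for `V ⊆ A.sup id`, `V` is the union of the singletons `{s}`,
`s ∈ V`, all in `A` (`sup_mem`, or induction on `V` with `∅ ∈ A` and `{s} ∪ V`), hence `V ∈ A`.
-/

set_option autoImplicit false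

namespace Pool.Agent.H97.T6

open Finset

variable {α : Type*} [DecidableEq α]

theorem erase_mem {A : Finset (Finset α)} (hA : UC A) {s : α} (hs : {s} ∈ A)
    (hf : 2 * frq A s ≤ A.card) : ∀ X ∈ A, s ∈ X → X.erase s ∈ A := by
  intro X hX hsX
  have hsub : (A.filter fun T => s ∉ T).image (insert s) ⊆ A.filter fun T => s ∈ T := by
    intro Y hY
    obtain ⟨T, hT, rfl⟩ := mem_image.mp hY
    rw [mem_filter] at hT ⊢
    exact ⟨by rw [insert_eq]; exact hA _ hs _ hT.1, mem_insert_self _ _⟩
  have hinj : ((A.filter fun T => s ∉ T).image (insert s)).card =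
      (A.filter fun T => s ∉ T).card := by
    apply card_image_of_injOn
    intro a ha b hb hab
    have ha' := (mem_filter.mp (mem_coe.mp ha)).2
    have hb' := (mem_filter.mp (mem_coe.mp hb)).2
    have hab' : insert s a = insert s b := hab
    rw [← erase_insert ha', ← erase_insert hb', hab']
  have hcard : (A.filter fun T => s ∈ T).card + (A.filter fun T => s ∉ T).card = A.card :=
    card_filter_add_card_filter_not (s := A) (fun T => s ∈ T)
  have heq : (A.filter fun T => s ∉ T).image (insert s) = A.filter fun T => s ∈ T := by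
    apply eq_of_subset_of_card_le hsub
    rw [hinj]
    unfold frq at hf
    omega
  have hXR : X ∈ A.filter fun T => s ∈ T := mem_filter.mpr ⟨hX, hsX⟩
  rw [← heq] at hXR
  obtain ⟨T, hT, rfl⟩ := mem_image.mp hXR
  rw [erase_insert (mem_filter.mp hT).2]
  exact (mem_filter.mp hT).1

theorem pow_of_singletons {A : Finset (Finset α)} (hA : UC A) (h0 : ∅ ∈ A)
    (hf : ∀ x ∈ A.sup id, 2 * frq A x ≤ A.card)
    (hat : ∀ X ∈ A, X.Nonempty → (∀ Z ∈ A, Z ⊆ X → Z.Nonempty → Z = X) → ∃ s, X = {s}) :
    A = (A.sup id).powerset := by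
  have hall : ∀ n : ℕ, ∀ X ∈ A, X.card = n → ∀ y ∈ X, {y} ∈ A := by
    intro n
    induction n using Nat.strong_induction_on with
    | _ n ih =>
      intro X hX hn y hy
      obtain ⟨Z, hZ, hmin⟩ := exists_min_image (A.filter fun Z => Z ⊆ X ∧ Z.Nonempty) card
        ⟨X, mem_filter.mpr ⟨hX, subset_rfl, ⟨y, hy⟩⟩⟩
      rw [mem_filter] at hZ
      obtain ⟨s, rfl⟩ := hat Z hZ.1 hZ.2.2 fun W hW hWZ hWn =>
        eq_of_subset_of_card_le hWZ (hmin W (mem_filter.mpr ⟨hW, hWZ.trans hZ.2.1, hWn⟩))
      have hsX : s ∈ X := hZ.2.1 (mem_singleton_self s)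
      by_cases hys : y = s
      · rw [hys]; exact hZ.1
      · have h1 := erase_mem hA hZ.1 (hf s (mem_U.mpr ⟨X, hX, hsX⟩)) X hX hsX
        refine ih (X.erase s).card ?_ _ h1 rfl y (mem_erase.mpr ⟨hys, hy⟩)
        rw [← hn]
        exact card_erase_lt_of_mem hsX
  apply Subset.antisymm
  · exact fun X hX => mem_powerset.mpr (sub_U hX)
  · intro V hV
    rw [mem_powerset] at hV
    induction V using Finset.induction_on with
    | empty => exact h0
    | insert a V ha ih =>
      rw [insert_eq]
      obtain ⟨X, hX, haX⟩ := mem_U.mp (hV (mem_insert_self a V))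
      exact hA _ (hall _ X hX rfl a haX) _ (ih fun x hx => hV (mem_insert_of_mem hx))

end Pool.Agent.H97.T6
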