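import Pool.Agent.H97.T6.Defs

/-!
# T6 (MP_75f39d_co): double counting for part (1)
-/

set_option autoImplicit false

namespace Pool.Agent.H97.T6

open Finset

variable {α : Type*} [DecidableEq α]

theorem card_rest (A : Finset (Finset α)) (g : Finset α → Finset α)
    (hg : ∀ T ∈ A, g T ⊆ A.sup id \ T) {T : Finset α} (hT : T ∈ A) :
    ((A.sup id).filter fun i => (i ∉ T ∧ insert i T ∉ A) ∧ i ∉ g T).card + T.card +
      (g T ∪ plus A T).card = (A.sup id).card := by
  have h1 : ((A.sup id).filter fun i => (i ∉ T ∧ insert i T ∉ A) ∧ i ∉ g T) =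
      ((A.sup id) \ T) \ (g T ∪ plus A T) := by
    ext i
    simp only [mem_filter, mem_sdiff, mem_union, mem_plus]
    tauto
  have h2 : g T ∪ plus A T ⊆ (A.sup id) \ T := by
    intro i hi
    rw [mem_union] at hi
    rcases hi with hi | hi
    · exact hg T hT hi
    · rw [mem_sdiff]
      obtain ⟨h3, h4⟩ := mem_plus.mp hi
      exact ⟨mem_U.mpr ⟨_, h4, mem_insert_self _ _⟩, h3⟩
  have h3 := Finset.card_sdiff_add_card_eq_card h2
  have h4 := Finset.card_sdiff_add_card_eq_card (sub_U hT)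
  rw [h1]
  omega

theorem star_sum (A : Finset (Finset α)) (g : Finset α → Finset α)
    (hg : ∀ T ∈ A, g T ⊆ A.sup id \ T)
    (h : - ∑ i ∈ A.sup id, (((Nn A i).filter fun T => i ∉ g T).card : ℤ) ≤
      ∑ i ∈ A.sup id, (2 * (frq A i : ℤ) - (A.card : ℤ))) :
    ∑ T ∈ A, (g T ∪ plus A T).card ≤ ∑ T ∈ A, T.card := by
  have h1 : ∑ i ∈ A.sup id, ((Nn A i).filter fun T => i ∉ g T).card =
      ∑ T ∈ A, ((A.sup id).filter fun i => (i ∉ T ∧ insert i T ∉ A) ∧ i ∉ g T).card := by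
    have h2 : ∀ i ∈ A.sup id, ((Nn A i).filter fun T => i ∉ g T).card =
        ∑ T ∈ A, if ((i ∉ T ∧ insert i T ∉ A) ∧ i ∉ g T) then 1 else 0 := by
      intro i _
      rw [Nn, filter_filter, card_filter]
    rw [sum_congr rfl h2, sum_comm]
    refine sum_congr rfl fun T _ => ?_
    rw [card_filter]
  have h3 : ∑ i ∈ A.sup id, frq A i = ∑ T ∈ A, T.card := by
    have h4 : ∀ i ∈ A.sup id, frq A i = ∑ T ∈ A, if i ∈ T then 1 else 0 := by
      intro i _
      rw [frq, card_filter]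
    rw [sum_congr rfl h4, sum_comm]
    refine sum_congr rfl fun T hT => ?_
    rw [← card_filter]
    congr 1
    ext i
    rw [mem_filter]
    exact ⟨fun h5 => h5.2, fun h5 => ⟨sub_U hT h5, h5⟩⟩
  have h5 : ∑ T ∈ A, ((A.sup id).filter fun i => (i ∉ T ∧ insert i T ∉ A) ∧ i ∉ g T).card +
      ∑ T ∈ A, T.card + ∑ T ∈ A, (g T ∪ plus A T).card = A.card * (A.sup id).card := by
    rw [← sum_add_distrib, ← sum_add_distrib, ← smul_eq_mul, ← sum_const]
    exact sum_congr rfl fun T hT => card_rest A g hg hT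
  have h6 : ∑ i ∈ A.sup id, (2 * (frq A i : ℤ) - (A.card : ℤ)) =
      2 * ((∑ T ∈ A, T.card : ℕ) : ℤ) - ((A.card * (A.sup id).card : ℕ) : ℤ) := by
    rw [← h3, sum_sub_distrib, sum_const, ← mul_sum]
    push_cast
    rw [nsmul_eq_mul]
    ring
  have h7 : ∑ i ∈ A.sup id, (((Nn A i).filter fun T => i ∉ g T).card : ℤ) =
      ((∑ T ∈ A, ((A.sup id).filter fun i =>
        (i ∉ T ∧ insert i T ∉ A) ∧ i ∉ g T).card : ℕ) : ℤ) := by
    rw [← h1]
    push_cast
    rfl
  rw [h6, h7] at h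
  omega

end Pool.Agent.H97.T6
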