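import Pool.Agent.H97.T6.Main
import Pool.Agent.H97.T6.Freq
import Pool.Agent.H97.T6.StarSum
import Pool.Agent.H97.T6.Atoms
import Pool.Agent.H97.T6.Singles

/-!
# MP_75f39d_co, theorem T6: the main inequality and the strict form
-/

set_option autoImplicit false

namespace Pool.Agent.H97.T6

open Finset

variable {α : Type*} [DecidableEq α]

theorem main_ineq {A : Finset (Finset α)} (hA : UC A) {S : Finset α}
    {D : α → Finset (Finset α)} (hD : ∀ i ∈ S, D i ⊆ Nn A i) (hP : ∀ i ∈ S, Indep A S i (D i)) :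
    - ∑ i ∈ S, ((Nn A i \ D i).card : ℤ) ≤ ∑ i ∈ S, (2 * (frq A i : ℤ) - (A.card : ℤ)) := by
  have h1 := sum_card_le hA hD hP
  rw [freq_sum A S]
  have h2 : ∑ i ∈ S, ((Nn A i \ D i).card : ℤ) =
      ∑ i ∈ S, ((Nn A i).card : ℤ) - ∑ i ∈ S, ((D i).card : ℤ) := by
    rw [← sum_sub_distrib]
    refine sum_congr rfl fun i hi => ?_
    have := card_sdiff_add_card_eq_card (hD i hi)
    omega
  have h3 : (∑ i ∈ S, ((D i).card : ℤ)) ≤ (Bdd A S).card := by exact_mod_cast h1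
  rw [h2]
  linarith

theorem strict {A : Finset (Finset α)} (hA : UC A) (hne : A.Nonempty)
    (hsep : ∀ x ∈ A.sup id, ∀ y ∈ A.sup id, x ≠ y → ∃ T ∈ A, ¬ (x ∈ T ↔ y ∈ T))
    (hpow : A ≠ (A.sup id).powerset)
    (hP : ∀ i ∈ A.sup id, Indep A (A.sup id) i (Nn A i)) :
    ∃ x ∈ A.sup id, A.card < 2 * frq A x := by
  by_contra hcon
  push Not at hcon
  have h2 := freq_sum A (A.sup id)
  have h3 : ∑ i ∈ A.sup id, (2 * (frq A i : ℤ) - (A.card : ℤ)) ≤ 0 :=
    sum_nonpos fun i hi => by have := hcon i hi; omega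
  have key : ¬ (∑ i ∈ A.sup id, (Nn A i).card < (Bdd A (A.sup id)).card) := by
    intro h
    have h4 : (∑ i ∈ A.sup id, ((Nn A i).card : ℤ)) < (Bdd A (A.sup id)).card := by
      exact_mod_cast h
    linarith
  have hU : ∀ X ∈ A, X ⊆ A.sup id := fun X hX => sub_U hX
  by_cases h0 : ∅ ∈ A
  · have hat := atoms_singleton hA h0 hsep fun u X X' i j j' hX hX' hu hu' hiu hiX hiX' hj hj' hij
      hij' hjX' => key (lemma_S hA hU (fun i _ => subset_rfl) hP u X X' i j j' hX hX' hu hu' hiu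
        hiX hiX' hj hj' hij hij' hjX')
    exact hpow (pow_of_singletons hA h0 hcon hat)
  · exact key (strict_empty hA hU (fun i _ => subset_rfl) hP hne h0)

/-- A set of members, each of which is the least of the set in its class modulo some `M`, `i ∈ M ⊆ S`,
is free. -/
theorem indep_of_least {A : Finset (Finset α)} {S : Finset α} {i : α}
    {D : Finset (Finset α)}
    (h : ∀ T ∈ D, ∃ M ∈ A, i ∈ M ∧ M ⊆ S ∧ ∀ T' ∈ D, T' \ M = T \ M → T ⊆ T') :
    Indep A S i D := by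
  refine indep_of_peel fun C hC hne => ?_
  obtain ⟨T, hT, hmax⟩ := exists_max_image C card hne
  obtain ⟨M, hM, hiM, hMS, hd⟩ := h T (hC hT)
  refine ⟨T, hT, M, hM, hiM, hMS, fun T' hT' he => ?_⟩
  exact (eq_of_subset_of_card_le (hd T' (hC hT') he) (hmax T' hT')).symm

/-- The points `i` at which `T` is least modulo some member. -/
def low (A : Finset (Finset α)) (T : Finset α) : Finset α :=
  (A.sup id).filter fun i => T ∈ Nn A i ∧
    ∃ M ∈ A, i ∈ M ∧ ∀ T' ∈ Nn A i, T' \ M = T \ M → T ⊆ T'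

theorem mem_low {A : Finset (Finset α)} {T : Finset α} {i : α} :
    i ∈ low A T ↔ i ∈ A.sup id ∧ T ∈ Nn A i ∧
      ∃ M ∈ A, i ∈ M ∧ ∀ T' ∈ Nn A i, T' \ M = T \ M → T ⊆ T' := by
  rw [low, mem_filter]

theorem star_sub {A : Finset (Finset α)} {T : Finset α} (hT : T ∈ A) :
    star A T ⊆ low A T ∪ plus A T := by
  intro i hi
  obtain ⟨M, hM, hd, hiM⟩ := mem_star.mp hi
  have hiT : i ∉ T := fun h => (Finset.disjoint_left.mp hd) hiM h
  rw [mem_union, mem_low, mem_plus]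
  by_cases hin : insert i T ∈ A
  · exact Or.inr ⟨hiT, hin⟩
  · refine Or.inl ⟨mem_U.mpr ⟨M, hM, hiM⟩, mem_Nn.mpr ⟨hT, hiT, hin⟩, M, hM, hiM,
      fun T' _ he => ?_⟩
    rw [sdiff_eq_self_of_disjoint hd.symm] at he
    rw [← he]
    exact sdiff_subset

theorem part1 {A : Finset (Finset α)} (hA : UC A) :
    ∑ T ∈ A, (low A T ∪ plus A T).card ≤ ∑ T ∈ A, T.card := by
  apply star_sum A (low A)
  · intro T _ i hi
    rw [mem_low] at hi
    exact mem_sdiff.mpr ⟨hi.1, (mem_Nn.mp hi.2.1).2.1⟩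
  have h := main_ineq hA (S := A.sup id) (D := fun i => (Nn A i).filter fun T => i ∈ low A T)
    (fun i _ => filter_subset _ _) (fun i _ => indep_of_least fun T hT => ?_)
  · refine le_trans (le_of_eq ?_) h
    congr 1
    refine sum_congr rfl fun i _ => ?_
    congr 2
    ext T
    simp only [mem_filter, mem_sdiff, not_and]
    tauto
  · rw [mem_filter, mem_low] at hT
    obtain ⟨_, _, _, M, hM, hiM, hl⟩ := hT
    exact ⟨M, hM, hiM, sub_U hM, fun T' hT' he => hl T' (mem_filter.mp hT').1 he⟩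

theorem part_local {A : Finset (Finset α)} (hA : UC A) {S : Finset α}
    (h : ∀ i ∈ S, ∀ T ∈ Nn A i, ∃ M ∈ A, i ∈ M ∧ M ⊆ S ∧
      ∀ T' ∈ Nn A i, T' \ M = T \ M → T ⊆ T') :
    0 ≤ ∑ i ∈ S, (2 * (frq A i : ℤ) - (A.card : ℤ)) := by
  have h1 := main_ineq hA (S := S) (D := fun i => Nn A i) (fun i _ => subset_rfl)
    (fun i hi => indep_of_least (h i hi))
  simpa using h1

theorem part_strict {A : Finset (Finset α)} (hA : UC A) (hne : A.Nonempty)
    (hsep : ∀ x ∈ A.sup id, ∀ y ∈ A.sup id, x ≠ y → ∃ T ∈ A, ¬ (x ∈ T ↔ y ∈ T))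
    (hpow : A ≠ (A.sup id).powerset)
    (h : ∀ i ∈ A.sup id, ∀ T ∈ Nn A i, ∃ M ∈ A, i ∈ M ∧ M ⊆ A.sup id ∧
      ∀ T' ∈ Nn A i, T' \ M = T \ M → T ⊆ T') :
    ∃ x ∈ A.sup id, A.card < 2 * frq A x :=
  strict hA hne hsep hpow fun i hi => indep_of_least (h i hi)

/-- A free set of members has at most as many elements as there are members through the point. -/
theorem free_card_le {A : Finset (Finset α)} (hA : UC A) {S : Finset α} {i : α}
    {D : Finset (Finset α)} (hD : D ⊆ A) (hP : Indep A S i D) : D.card ≤ frq A i := by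
  refine card_le_of_fun D (A.filter fun X => i ∈ X)
    (fun X T => if T ⊆ X ∧ X \ S ⊆ T then 1 else 0) fun c hc => ?_
  exact coeff_zero hA hD hP fun X hX hiX => hc X (mem_filter.mpr ⟨hX, hiX⟩)

end Pool.Agent.H97.T6
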