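import Pool.Agent.H97.T6.Core

/-!
# MP_75f39d_co, theorem T6: dimension count
-/

set_option autoImplicit false

namespace Pool.Agent.H97.T6

open Finset

variable {α : Type*} [DecidableEq α]

theorem card_le_of_fun {β : Type*} (D : Finset (Finset α)) (B : Finset β)
    (K : β → Finset α → ℚ)
    (h : ∀ c : Finset α → ℚ, (∀ b ∈ B, ∑ T ∈ D, K b T * c T = 0) → ∀ T ∈ D, c T = 0) :
    D.card ≤ B.card := by
  classical
  let M : Matrix B D ℚ := Matrix.of fun b T => K b.1 T.1
  have hinj : Function.Injective M.mulVecLin := by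
    rw [← LinearMap.ker_eq_bot, LinearMap.ker_eq_bot']
    intro c hc
    let c' : Finset α → ℚ := fun T => if hT : T ∈ D then c ⟨T, hT⟩ else 0
    have hb : ∀ b ∈ B, ∑ T ∈ D, K b T * c' T = 0 := by
      intro b hb
      have h1 := congrFun hc ⟨b, hb⟩
      rw [Matrix.mulVecLin_apply, Matrix.mulVec, dotProduct] at h1
      rw [← Finset.sum_coe_sort]
      have h2 : ∑ T : D, K b T * c' T = ∑ T : D, M ⟨b, hb⟩ T * c T :=
        sum_congr rfl fun T _ => by simp [M, c']
      rw [h2, h1]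
      rfl
    have h1 := h c' hb
    funext T
    have h2 := h1 T.1 T.2
    simpa [c'] using h2
  have h3 := card_le_of_injective ℚ M.mulVecLin hinj
  simpa using h3

theorem card_le_of_kill {A : Finset (Finset α)} (hA : UC A) {S : Finset α} {pos : α → ℕ} {N : ℕ}
    {i : α} (hi : i ∈ S) (hpos : Set.InjOn pos (S : Set α)) (hN : ∀ x ∈ S, pos x < N)
    {D : Finset (Finset α)} (hD : D ⊆ Nn A i) (hP : Indep A S i D)
    (B' : Finset (Finset α × α))
    (h : ∀ c : Finset α → ℚ, (∀ p ∈ B', fl A D c S pos N i p = 0) →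
      ∀ p ∈ Bi A S pos N i, fl A D c S pos N i p = 0) : D.card ≤ B'.card := by
  refine card_le_of_fun D B' (fun p T => if T ⊆ Mx A (p.1.erase p.2) ∧
    Mx A (p.1.erase p.2) \ Qk S pos N i (rk N (pos i) (pos p.2)) ⊆ T then 1 else 0) ?_
  intro c hc
  have h1 := h c (fun p hp => hc p hp)
  refine coeff_zero hA (hD.trans nn_sub) hP fun X hX hiX => ?_
  have h2 := FF_zero hA hi hpos hN hD h1 N (by have := hN i hi; omega) X hX hiX
  rwa [qk_all hi hN] at h2

theorem bi_inj {A : Finset (Finset α)} {S : Finset α} {pos : α → ℕ} {N : ℕ}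
    (hpos : Set.InjOn pos (S : Set α)) (hN : ∀ x ∈ S, pos x < N) {i i' : α} (hi : i ∈ S)
    (hi' : i' ∈ S) {p : Finset α × α} (h : p ∈ Bi A S pos N i) (h' : p ∈ Bi A S pos N i') :
    i = i' := by
  by_contra hne
  rw [mem_Bi] at h h'
  obtain ⟨hB, h1, h2, -, h3, h4, h5⟩ := h
  obtain ⟨-, h1', h2', -, h3', h4', h5'⟩ := h'
  have hj := (mem_Bdd.mp hB).1.2
  have e1 := h5 i' (mem_sdiff.mpr ⟨h1', h3'⟩)
  have e2 := h5' i (mem_sdiff.mpr ⟨h1, h3⟩)
  have n1 : pos i ≠ pos i' := fun h => hne (hpos hi hi' h)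
  have n2 : pos i ≠ pos p.2 := fun h => h2 (hpos hi hj h)
  have n3 : pos i' ≠ pos p.2 := fun h => h2' (hpos hi' hj h)
  have b1 := hN i hi
  have b2 := hN i' hi'
  have b3 := hN p.2 hj
  unfold rk at e1 e2
  split_ifs at e1 e2 <;> omega

theorem sum_bi_le {A : Finset (Finset α)} {S : Finset α} {pos : α → ℕ} {N : ℕ}
    (hpos : Set.InjOn pos (S : Set α)) (hN : ∀ x ∈ S, pos x < N) (B : Finset (Finset α × α))
    (hB : ∀ i ∈ S, Bi A S pos N i ⊆ B) : ∑ i ∈ S, (Bi A S pos N i).card ≤ B.card := by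
  rw [← card_biUnion]
  · exact card_le_card (biUnion_subset.mpr hB)
  · intro i hi i' hi' hne
    show Disjoint _ _
    rw [Finset.disjoint_left]
    exact fun p hp hp' => hne (bi_inj hpos hN hi hi' hp hp')

/-- Positions exist. -/
theorem exists_pos (S : Finset α) : ∃ e : α → ℕ, Set.InjOn e (S : Set α) ∧ ∀ x ∈ S, e x < S.card := by
  refine ⟨fun x => if h : x ∈ S then (S.equivFin ⟨x, h⟩).val else 0, ?_, ?_⟩
  · intro x hx y hy hxy
    have hx' : x ∈ S := hx
    have hy' : y ∈ S := hy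
    simp only [hx', hy', dite_true] at hxy
    have := S.equivFin.injective (Fin.ext hxy)
    simpa using this
  · intro x hx
    simp only [hx, dite_true]
    exact (S.equivFin ⟨x, hx⟩).isLt

theorem sum_card_le {A : Finset (Finset α)} (hA : UC A) {S : Finset α}
    {D : α → Finset (Finset α)} (hD : ∀ i ∈ S, D i ⊆ Nn A i) (hP : ∀ i ∈ S, Indep A S i (D i)) :
    ∑ i ∈ S, (D i).card ≤ (Bdd A S).card := by
  obtain ⟨e, he, hN⟩ := exists_pos S
  refine le_trans (sum_le_sum fun i hi => ?_) (sum_bi_le he hN (Bdd A S)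
    fun i _ => filter_subset _ _)
  exact card_le_of_kill hA hi he hN (hD i hi) (hP i hi) _ fun c h => h

/-- If the empty set is not a member the inequality is strict. -/
theorem strict_empty {A : Finset (Finset α)} (hA : UC A) {S : Finset α} (hU : ∀ X ∈ A, X ⊆ S)
    {D : α → Finset (Finset α)} (hD : ∀ i ∈ S, D i ⊆ Nn A i) (hP : ∀ i ∈ S, Indep A S i (D i))
    (hne : A.Nonempty) (h0 : ∅ ∉ A) : ∑ i ∈ S, (D i).card < (Bdd A S).card := by
  obtain ⟨X, hX, hmin⟩ := exists_min_image A card hne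
  have hXn : X.Nonempty := by
    rw [nonempty_iff_ne_empty]
    rintro rfl
    exact h0 hX
  obtain ⟨j, hj⟩ := hXn
  have hsm : ∀ W ∈ A, ¬ W ⊆ X.erase j := by
    intro W hW hWX
    have h1 := hmin W hW
    have h2 := card_le_card hWX
    have h3 := card_erase_lt_of_mem hj
    omega
  have hB : (X, j) ∈ Bdd A S :=
    mem_Bdd.mpr ⟨⟨hX, hU X hX hj⟩, hj, fun h => hsm _ h subset_rfl⟩
  obtain ⟨e, he, hN⟩ := exists_pos S
  have h1 : ∑ i ∈ S, (D i).card ≤ ∑ i ∈ S, (Bi A S e S.card i).card :=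
    sum_le_sum fun i hi => card_le_of_kill hA hi he hN (hD i hi) (hP i hi) _ fun c h => h
  have h2 := sum_bi_le he hN ((Bdd A S).erase (X, j)) (A := A) (fun i _ p hp => by
    have hp' := mem_Bi.mp hp
    refine mem_erase.mpr ⟨?_, hp'.1⟩
    rintro rfl
    obtain ⟨W, hW, hWX⟩ := hp'.2.2.2.1
    exact hsm W hW hWX)
  have h3 := card_erase_lt_of_mem hB
  omega

/-- Two boundary pairs of one point with the same largest member below: strict inequality. -/
theorem lemma_S {A : Finset (Finset α)} (hA : UC A) {S : Finset α} (hU : ∀ X ∈ A, X ⊆ S)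
    {D : α → Finset (Finset α)} (hD : ∀ i ∈ S, D i ⊆ Nn A i) (hP : ∀ i ∈ S, Indep A S i (D i))
    (u X X' : Finset α) (i j j' : α) (hX : X ∈ A) (hX' : X' ∈ A) (hu : Lg A u (X.erase j))
    (hu' : Lg A u (X'.erase j')) (hiu : i ∉ u) (hiX : i ∈ X) (hiX' : i ∈ X') (hj : j ∈ X)
    (hj' : j' ∈ X') (hij : i ≠ j) (hij' : i ≠ j') (hjX' : j ∉ X') :
    ∑ k ∈ S, (D k).card < (Bdd A S).card := by
  obtain ⟨e, he, hN⟩ := exists_pos S
  set n := S.card with hn
  have hju : j ∉ u := fun h => (mem_erase.mp (hu.2.1 h)).1 rfl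
  have hju' : j' ∉ u := fun h => (mem_erase.mp (hu'.2.1 h)).1 rfl
  have hjj : j' ≠ j := fun h => hjX' (h ▸ hj')
  have hiS := hU X hX hiX
  let pos : α → ℕ := fun x => if x = i then 0 else if x ∈ u then 1 + e x else
    if x = j then 2 * n + 2 else if x = j' then 2 * n + 1 else n + 1 + e x
  have hpos : Set.InjOn pos (S : Set α) := by
    intro x hx y hy hxy
    have b1 := hN x hx
    have b2 := hN y hy
    have b3 : e x = e y → x = y := fun h => he hx hy h
    simp only [pos] at hxy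
    split_ifs at hxy <;> first | omega | (exact b3 (by omega)) | (simp_all)
  have hposN : ∀ x ∈ S, pos x < 2 * n + 3 := by
    intro x hx
    have b1 := hN x hx
    simp only [pos]
    split_ifs <;> omega
  have hpi : pos i = 0 := by simp [pos]
  have hrk : ∀ b, rk (2 * n + 3) (pos i) b = b := by
    intro b
    rw [hpi]
    simp [rk]
  have hpj : pos j = 2 * n + 2 := by
    show (if j = i then 0 else if j ∈ u then 1 + e j else
      if j = j then 2 * n + 2 else if j = j' then 2 * n + 1 else n + 1 + e j) = 2 * n + 2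
    rw [if_neg hij.symm, if_neg hju, if_pos rfl]
  have hpj' : pos j' = 2 * n + 1 := by
    show (if j' = i then 0 else if j' ∈ u then 1 + e j' else
      if j' = j then 2 * n + 2 else if j' = j' then 2 * n + 1 else n + 1 + e j') = 2 * n + 1
    rw [if_neg hij'.symm, if_neg hju', if_neg hjj, if_pos rfl]
  have hm1 : (X, j) ∈ Bi A S pos (2 * n + 3) i := by
    rw [mem_Bi]
    refine ⟨mem_Bdd.mpr ⟨⟨hX, hU X hX hj⟩, hj, fun h => hiu ?_⟩, hiX, hij, ⟨u, hu.1, hu.2.1⟩,
      ?_, ?_, ?_⟩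
    · exact hu.2.2 _ h subset_rfl (mem_erase.mpr ⟨hij, hiX⟩)
    · show i ∉ Mx A (X.erase j)
      rw [mx_eq hu]
      exact hiu
    · exact sdiff_subset.trans (hU X hX)
    · intro x hx
      rw [hrk, hrk]
      show pos x ≤ pos j
      rw [hpj]
      have := hposN x (hU X hX (mem_sdiff.mp hx).1)
      omega
  have hm2 : (X', j') ∈ Bi A S pos (2 * n + 3) i := by
    rw [mem_Bi]
    refine ⟨mem_Bdd.mpr ⟨⟨hX', hU X' hX' hj'⟩, hj', fun h => hiu ?_⟩, hiX', hij',
      ⟨u, hu'.1, hu'.2.1⟩, ?_, ?_, ?_⟩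
    · exact hu'.2.2 _ h subset_rfl (mem_erase.mpr ⟨hij', hiX'⟩)
    · show i ∉ Mx A (X'.erase j')
      rw [mx_eq hu']
      exact hiu
    · exact sdiff_subset.trans (hU X' hX')
    · intro x hx
      rw [hrk, hrk]
      show pos x ≤ pos j'
      rw [hpj']
      have hxX : x ∈ X' := (mem_sdiff.mp hx).1
      have b1 := hN x (hU X' hX' hxX)
      have hxj : x ≠ j := fun h => hjX' (h ▸ hxX)
      simp only [pos]
      split_ifs <;> omega
  have hne : ((X', j') : Finset α × α) ≠ (X, j) := fun h => hjj (congrArg Prod.snd h)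
  have hfl : ∀ c, fl A (D i) c S pos (2 * n + 3) i (X, j) =
      fl A (D i) c S pos (2 * n + 3) i (X', j') := by
    intro c
    have h1 : ∀ k, n + 1 ≤ k → u \ Qk S pos (2 * n + 3) i k = ∅ := by
      intro k hk
      rw [sdiff_eq_empty_iff_subset]
      intro x hx
      have hxS := hU u hu.1 hx
      rw [Qk, mem_filter]
      refine ⟨hxS, ?_⟩
      rw [hrk]
      have b1 := hN x hxS
      have hxi : x ≠ i := fun h => hiu (h ▸ hx)
      simp only [pos]
      rw [if_neg hxi, if_pos hx]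
      omega
    simp only [fl, FF, mx_eq hu, mx_eq hu', hrk, hpj, hpj']
    rw [h1 _ (by omega), h1 _ (by omega)]
  have h1 : (D i).card ≤ ((Bi A S pos (2 * n + 3) i).erase (X, j)).card := by
    refine card_le_of_kill hA hiS hpos hposN (hD i hiS) (hP i hiS) _ fun c h p hp => ?_
    by_cases hpe : p = (X, j)
    · rw [hpe, hfl c]
      exact h _ (mem_erase.mpr ⟨hne, hm2⟩)
    · exact h p (mem_erase.mpr ⟨hpe, hp⟩)
  have h2 : ∑ k ∈ S, (D k).card < ∑ k ∈ S, (Bi A S pos (2 * n + 3) k).card := by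
    refine sum_lt_sum (fun k hk => card_le_of_kill hA hk hpos hposN (hD k hk) (hP k hk) _
      fun c h => h) ⟨i, hiS, ?_⟩
    have := card_erase_lt_of_mem hm1
    omega
  exact lt_of_lt_of_le h2 (sum_bi_le hpos hposN _ fun k _ => filter_subset _ _)

end Pool.Agent.H97.T6
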